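import Pool.Agent.Y483.PW.Def
import Pool.Agent.R615.KU.Wr2

/-!
A class of groups with injective rational assembly maps in L-theory: definition.
-/

namespace Pool.Agent.Zk7.NC

open Pool.Agent.Y483 Pool.Agent.Y483.PW Pool.Agent.R615.KU

/-- The smallest class of groups which

* contains the groups with the property `B` (`base`);
* contains the groups `π / [R, R]`, where `π` is a group which acts on a tree with finite
  stabilizers of the vertices and `R` is any normal subgroup of `π` (`tree`), and the groups all of
  whose rational homology in positive degrees is zero (`acyclic`);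
* is closed under direct products (`prod`), overgroups of finite index (`overgroup`), extensions
  with locally finite kernel (`ext`), restricted wreath products `K ≀_V Γ`, for an action of a
  group `Γ` on a set `V`, such that the pointwise stabilizers in `Γ` of the finite subsets of `V` are
  in the class (`wreath`), semidirect products `N ⋊ Γ` with a system of supports such that the
  subgroups `N_σ ⋊ Γ_σ` are in the class (`supp`), and unions of directed families of subgroups
  (`union`);
* contains a group if its rational homology is detected by homomorphisms to groups in the class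
  (`detect`). -/
inductive Cls (B : (G : Type) → [Group G] → Prop) : (G : Type) → [Group G] → Prop
  | base (G : Type) [Group G] (h : B G) : Cls B G
  | tree (π V : Type) [Group π] [MulAction π V] (Tr : SimpleGraph V) (hT : Tr.IsTree)
      (hadj : ∀ (g : π) (u v : V), Tr.Adj u v → Tr.Adj (g • u) (g • v))
      (hfin : ∀ v : V, (MulAction.stabilizer π v : Set π).Finite) (R : Subgroup π) [R.Normal] :
      Cls B (π ⧸ ⁅R, R⁆)
  | acyclic (G : Type) [Group G] (h : ∀ (j : ℕ) (x : HQ (j + 1) G), x = 0) : Cls B G
  | prod (G K : Type) [Group G] [Group K] (hG : Cls B G) (hK : Cls B K) : Cls B (G × K)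
  | overgroup (G : Type) [Group G] (H : Subgroup G) [H.FiniteIndex] (h : Cls B H) : Cls B G
  | ext (G K : Type) [Group G] [Group K] (p : G →* K) (hp : Function.Surjective p)
      (hloc : ∀ S : Finset G, (∀ s ∈ S, p s = 1) → ∃ A : Subgroup G, Finite A ∧ ∀ s ∈ S, s ∈ A)
      (h : Cls B K) : Cls B G
  | wreath (K V Γ : Type) [Group K] [Group Γ] [MulAction Γ V] (hK : Cls B K)
      (hΓ : ∀ σ : Finset V, Cls B (fixingSubgroup Γ (σ : Set V))) : Cls B (FW K V Γ)
  | supp (Γ N V : Type) [Group Γ] [Group N] [MulAction Γ V] (s : Sys Γ N V)
      (h : ∀ σ : s.Cl, Cls B (s.supG σ.1)) : Cls B (N ⋊[s.φ] Γ)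
  | union (G ι : Type) [Group G] (H : ι → Subgroup G) (hd : Directed (· ≤ ·) H)
      (hc : ∀ g : G, ∃ i, g ∈ H i) (h : ∀ i, Cls B (H i)) : Cls B G
  | detect (G ι : Type) [Group G] (K : ι → Type) [∀ i, Group (K i)] (f : ∀ i, G →* K i)
      (hK : ∀ i, Cls B (K i)) (hf : ∀ (j : ℕ) (x : HQ j G), (∀ i, hqMap (f i) j x = 0) → x = 0) :
      Cls B G

end Pool.Agent.Zk7.NC
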