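import Pool.Agent.Zk7.NC.Union
import Pool.Agent.Zk7.NC.Def
import Pool.Agent.R615.KU.Gp
import Pool.Agent.R615.KU.Fk
import Pool.Agent.R615.KU.Wr2
import Pool.Agent.V11187.MG.Tr

/-!
A class of groups with injective rational assembly maps in L-theory.
-/

namespace Pool.Agent.Zk7.NC

open Pool.Agent.Y483 Pool.Agent.Y110.KW Pool.Agent.Y483.PW Pool.Agent.Y75.MQ CategoryTheory
  DirectSum Pool.Agent.R615.KU Pool.Agent.R793.Mag

theorem det_acyclic {E : GrpCat.{0} ⥤ ModuleCat.{0} ℚ} (G : Type) [Group G]
    (h : ∀ (j : ℕ) (x : HQ (j + 1) G), x = 0) : Det E G := by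
  refine (Det.zn 0).of_inj (1 : G →* Zn 0) fun j x hx => ?_
  cases j with
  | succ j => exact h j x
  | zero =>
    obtain ⟨z, hz⟩ := exists_rpr (Rep.trivial ℚ G ℚ) 0 x
    rw [hz.eq_zero_iff]
    have h1 := (hz.hq (1 : G →* Zn 0)).eq_zero_iff.mp hx
    obtain ⟨w, hw⟩ := h1
    have h2 : z = 0 := by
      have h3 : ∀ w : T 1 (Zn 0) ℚ, dd (tQ (Zn 0)) 0 w = 0 := by
        intro w
        have e : (dd (tQ (Zn 0)) 0 : T 1 (Zn 0) ℚ →ₗ[ℚ] T 0 (Zn 0) ℚ) = 0 := by
          apply T_ext
          intro x m
          rw [dd_single, LinearMap.zero_apply, Fin.sum_univ_one]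
          have e1 : ∀ (a b : Fin 0 → Zn 0), a = b := fun a b => funext fun i => i.elim0
          rw [e1 (fun i => x i.succ) (fun i => i.elim0),
            e1 (Fin.contractNth 0 _ x) (fun i => i.elim0), tQ_apply]
          simp
        rw [e]; rfl
      have h4 : mp 0 (1 : G →* Zn 0) LinearMap.id z = 0 := by rw [← hw]; exact h3 w
      have h5 : ∀ z : T 0 G ℚ, z = Finsupp.single (fun i => i.elim0) (z (fun i => i.elim0)) := by
        intro z
        apply Finsupp.ext
        intro t
        rw [show t = (fun i => i.elim0) from funext fun i => i.elim0, Finsupp.single_eq_same]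
      rw [h5 z, mp_single] at h4
      have h6 := Finsupp.single_eq_zero.mp h4
      rw [h5 z]
      change Finsupp.single _ (LinearMap.id (R := ℚ) (z _)) = 0
      rw [h6, Finsupp.single_zero]
    rw [h2]
    exact ⟨0, map_zero _⟩

/-- All groups in the class are detecting, for a functor with transfers along pairs and
continuity. -/
theorem Cls.det {E : GrpCat.{0} ⥤ ModuleCat.{0} ℚ} (hE : HasPT E) (hC : Cont E)
    {B : (G : Type) → [Group G] → Prop} (hB : ∀ (G : Type) [Group G], B G → Det E G) {G : Type}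
    [Group G] (h : Cls B G) : Det E G := by
  induction h with
  | base G h => exact hB G h
  | tree π V Tr hT hadj hfin R =>
    intro T _ I α hα
    rw [kerFam_eq]
    exact V11187.MG.ker_tree hadj _ _ (hE.times T) hT hfin R (fun n => ker_Zn_of_li α hα n)
  | acyclic G h => exact det_acyclic G h
  | prod G K hG hK h1 h2 => exact h1.prod h2
  | overgroup G H h h1 => exact Det.virt hE H h1
  | ext G K p hp hloc h h1 =>
    exact h1.of_inj p fun j x hx => V11187.MG.hq_inj_of_loc p hp hloc j x hx
  | wreath K V Γ hK hΓ h1 h2 => exact Det.fw hE h1 h2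
  | supp Γ N V s h h1 => exact Det.sys_sep hE s h1
  | union G ι H hd hc h h1 => exact det_union H hd hc hC h1
  | detect G ι K f hK hf h1 =>
    refine Det.detect fun j x hx => ?_
    by_contra hne
    apply hx
    apply hf
    intro i
    by_contra h3
    exact hne ⟨K i, inferInstance, f i, h1 i, h3⟩

end Pool.Agent.Zk7.NC
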