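import Pool.Agent.Y483.LGroup

/-!
The rationalised L-group of the union of a directed family of rings with involution: an element of
the L-group of a member which becomes trivial in the L-group of the union is trivial in the L-group
of a larger member.
-/

namespace Pool.Agent.Zk7.NC

open Pool.Agent.Y483 Matrix

/-- A directed family of rings with involution whose union is `S`. -/
structure DS {ι : Type} (R : ι → Type) [∀ i, Ring (R i)] [∀ i, StarRing (R i)] (S : Type) [Ring S]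
    [StarRing S] where
  /-- The inclusions in `S`. -/
  f : ∀ i, R i →⋆ₙ+* S
  inj : ∀ i, Function.Injective (f i)
  /-- The preorder. -/
  le : ι → ι → Prop
  refl : ∀ i, le i i
  trans : ∀ {i j k}, le i j → le j k → le i k
  dir : ∀ i j, ∃ k, le i k ∧ le j k
  /-- The inclusions. -/
  g : ∀ {i j}, le i j → (R i →⋆ₙ+* R j)
  comp : ∀ {i j} (h : le i j) (x : R i), f j (g h x) = f i x
  cov : ∀ s : S, ∃ i x, f i x = s

namespace DS

variable {ι : Type} {R : ι → Type} [∀ i, Ring (R i)] [∀ i, StarRing (R i)] {S : Type} [Ring S]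
  [StarRing S] (D : DS R S) {ε : ℤˣ}

include D in
theorem bound {κ : Type} (s : Finset κ) (j : κ → ι) (i : ι) :
    ∃ k, D.le i k ∧ ∀ x ∈ s, D.le (j x) k := by
  classical
  induction s using Finset.induction_on with
  | empty => exact ⟨i, D.refl i, fun x hx => absurd hx (Finset.notMem_empty x)⟩
  | insert a s _ ih =>
    obtain ⟨k, h1, h2⟩ := ih
    obtain ⟨l, h3, h4⟩ := D.dir k (j a)
    refine ⟨l, D.trans h1 h3, fun x hx => ?_⟩
    rcases Finset.mem_insert.mp hx with rfl | hx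
    · exact h4
    · exact D.trans (h2 x hx) h3

theorem lift_fun {κ : Type} [Fintype κ] (a : κ → S) (i : ι) :
    ∃ k, D.le i k ∧ ∃ b : κ → R k, ∀ x, D.f k (b x) = a x := by
  choose j b hb using fun x => D.cov (a x)
  obtain ⟨k, h1, h2⟩ := D.bound Finset.univ j i
  exact ⟨k, h1, fun x => D.g (h2 x (Finset.mem_univ x)) (b x), fun x => by rw [D.comp, hb]⟩

theorem lift_mat {α β : Type} [Fintype α] [Fintype β] (M : Matrix α β S) (i : ι) :
    ∃ k, D.le i k ∧ ∃ N : Matrix α β (R k), N.map (D.f k) = M := by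
  obtain ⟨k, h, b, hb⟩ := D.lift_fun (fun p : α × β => M p.1 p.2) i
  exact ⟨k, h, Matrix.of fun a b' => b (a, b'), Matrix.ext fun a b' => hb (a, b')⟩

theorem map_mat {α β : Type} {i j : ι} (h : D.le i j) (N : Matrix α β (R i)) :
    (N.map (D.g h)).map (D.f j) = N.map (D.f i) := Matrix.ext fun a b => D.comp h (N a b)

theorem mat_inj {α β : Type} {i : ι} {M N : Matrix α β (R i)} (h : M.map (D.f i) = N.map (D.f i)) :
    M = N := Matrix.ext fun a b => D.inj i (congrFun (congrFun h a) b)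

theorem form_inj {α : Type} [Fintype α] {i : ι} {x y : QForm (R i) ε α}
    (h : x.map (D.f i) = y.map (D.f i)) : x = y :=
  QForm.ext (D.mat_inj (congrArg QForm.θ h)) (D.mat_inj (congrArg QForm.ψ h))

theorem map_form {α : Type} [Fintype α] {i j : ι} (h : D.le i j) (x : QForm (R i) ε α) :
    (x.map (D.g h)).map (D.f j) = x.map (D.f i) :=
  QForm.ext (D.map_mat h x.θ) (D.map_mat h x.ψ)

theorem lift_form {α : Type} [Fintype α] (x : QForm S ε α) (i : ι) :
    ∃ k, D.le i k ∧ ∃ y : QForm (R k) ε α, y.map (D.f k) = x := by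
  obtain ⟨j, h1, θ, hθ⟩ := D.lift_mat x.θ i
  obtain ⟨k, h2, ψ, hψ⟩ := D.lift_mat x.ψ j
  have hθ' : (θ.map (D.g h2)).map (D.f k) = x.θ := by rw [D.map_mat, hθ]
  set θ' := θ.map (D.g h2)
  have hφ : (θ' + dag ε θ').map (D.f k) = x.θ + dag ε x.θ := by
    rw [Matrix.map_add _ (map_add _), ← dag_map, hθ']
  refine ⟨k, D.trans h1 h2, ⟨θ', ψ, ?_, ?_, ?_⟩, QForm.ext hθ' hψ⟩
  · apply D.mat_inj
    rw [← dag_map, hψ, x.dag_psi]
  · apply D.mat_inj
    rw [Matrix.map_mul, Matrix.map_mul, hφ, hψ, x.psi_phi_psi]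
  · apply D.mat_inj
    rw [Matrix.map_mul, Matrix.map_mul, Matrix.map_mul, Matrix.map_mul, hφ, hψ, hθ', x.compress]

theorem conj_map {α β : Type} {i : ι} (u : Matrix α β (R i)) :
    (u.map (D.f i))ᴴ = uᴴ.map (D.f i) := by
  ext a b
  simp [map_star]

theorem lift_isom {α β : Type} [Fintype α] [Fintype β] {i : ι} {x : QForm (R i) ε α}
    {y : QForm (R i) ε β} (h : Isometric (x.map (D.f i)) (y.map (D.f i))) :
    ∃ k, ∃ h : D.le i k, Isometric (x.map (D.g h)) (y.map (D.g h)) := by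
  obtain ⟨u, h1, χ, h2⟩ := h
  obtain ⟨j, hj, u', hu⟩ := D.lift_mat u i
  obtain ⟨k, hk, χ', hχ⟩ := D.lift_mat χ j
  have hik := D.trans hj hk
  have hu' : (u'.map (D.g hk)).map (D.f k) = u := by rw [D.map_mat, hu]
  set u'' := u'.map (D.g hk)
  refine ⟨k, hik, u'', ?_, χ', ?_⟩
  · apply D.mat_inj
    rw [Matrix.map_mul, Matrix.map_mul, ← D.conj_map, hu']
    have e1 : (x.map (D.g hik)).ψ.map (D.f k) = x.ψ.map (D.f i) := D.map_mat hik x.ψ
    have e2 : (y.map (D.g hik)).ψ.map (D.f k) = y.ψ.map (D.f i) := D.map_mat hik y.ψ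
    rw [e1, e2]
    exact h1
  · apply D.mat_inj
    rw [Matrix.map_mul, Matrix.map_mul, ← D.conj_map, hu', Matrix.map_add _ (map_add _),
      Matrix.map_sub _ (map_sub _), ← dag_map, hχ]
    have e1 : (x.map (D.g hik)).θ.map (D.f k) = x.θ.map (D.f i) := D.map_mat hik x.θ
    have e2 : (y.map (D.g hik)).θ.map (D.f k) = y.θ.map (D.f i) := D.map_mat hik y.θ
    rw [e1, e2]
    exact h2

theorem lift_hyp {α : Type} [Fintype α] {i : ι} {x : QForm (R i) ε α} (h : IsHyp (x.map (D.f i))) :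
    ∃ k, ∃ h : D.le i k, IsHyp (x.map (D.g h)) := by
  obtain ⟨l, h1, h2, h3, χ, h4⟩ := h
  obtain ⟨j, hj, l', hl⟩ := D.lift_mat l i
  obtain ⟨k, hk, χ', hχ⟩ := D.lift_mat χ j
  have hik := D.trans hj hk
  have hl' : (l'.map (D.g hk)).map (D.f k) = l := by rw [D.map_mat, hl]
  set l'' := l'.map (D.g hk)
  have eθ : (x.map (D.g hik)).θ.map (D.f k) = (x.map (D.f i)).θ := D.map_mat hik x.θ
  have ee : (x.map (D.g hik)).e.map (D.f k) = (x.map (D.f i)).e := by
    rw [← QForm.map_e, D.map_form]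
  have eφ : (x.map (D.g hik)).φ.map (D.f k) = (x.map (D.f i)).φ := by
    rw [← QForm.map_phi, D.map_form]
  refine ⟨k, hik, l'', ?_, ?_, ?_, χ', ?_⟩
  · apply D.mat_inj
    rw [Matrix.map_mul, hl', h1]
  · apply D.mat_inj
    rw [Matrix.map_mul, hl', ee, h2]
  · apply D.mat_inj
    rw [Matrix.map_mul, hl', ee, h3]
  · apply D.mat_inj
    rw [Matrix.map_add _ (map_add _), Matrix.map_mul, ← D.conj_map, hl', eφ,
      Matrix.map_sub _ (map_sub _), ← dag_map, hχ, eθ]
    exact h4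

theorem forms_inj (i : ι) : Function.Injective (formsMap ε (D.f i)) := by
  rintro ⟨m, x⟩ ⟨n, y⟩ h
  have h1 : m = n := congrArg Sigma.fst h
  subst h1
  have h2 : x.map (D.f i) = y.map (D.f i) := eq_of_heq (Sigma.mk.inj h).2
  rw [D.form_inj h2]

theorem map_forms {i j : ι} (h : D.le i j) (x : Forms (R i) ε) :
    formsMap ε (D.f j) (formsMap ε (D.g h) x) = formsMap ε (D.f i) x := by
  obtain ⟨m, x⟩ := x
  exact congrArg (Sigma.mk m) (D.map_form h x)

theorem map_dom {i j : ι} (h : D.le i j) (r : Forms (R i) ε →₀ ℚ) :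
    Finsupp.mapDomain (formsMap ε (D.f j)) (Finsupp.mapDomain (formsMap ε (D.g h)) r) =
      Finsupp.mapDomain (formsMap ε (D.f i)) r := by
  rw [← Finsupp.mapDomain_comp]
  congr 1
  funext x
  exact D.map_forms h x

/-- A relation comes from a member. -/
theorem lift_rel {r : Forms S ε →₀ ℚ} (hr : LRel S ε r) (i : ι) :
    ∃ k, D.le i k ∧ ∃ s : Forms (R k) ε →₀ ℚ, LRel (R k) ε s ∧
      Finsupp.mapDomain (formsMap ε (D.f k)) s = r := by
  rcases hr with ⟨⟨m, x⟩, ⟨n, y⟩, h, rfl⟩ | ⟨n, x, y, z, h1, h2, h3, h4, rfl⟩ | ⟨⟨n, x⟩, h, rfl⟩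
  · obtain ⟨j, hj, x', rfl⟩ := D.lift_form x i
    obtain ⟨k, hk, y', rfl⟩ := D.lift_form y j
    have h' : Isometric ((x'.map (D.g hk)).map (D.f k)) (y'.map (D.f k)) := by
      rw [D.map_form]; exact h
    obtain ⟨l, hl, h''⟩ := D.lift_isom h'
    refine ⟨l, D.trans (D.trans hj hk) hl, _,
      Or.inl ⟨⟨m, (x'.map (D.g hk)).map (D.g hl)⟩, ⟨n, y'.map (D.g hl)⟩, h'', rfl⟩, ?_⟩
    rw [sub_eq_add_neg, Finsupp.mapDomain_add, ← Finsupp.single_neg, Finsupp.mapDomain_single,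
      Finsupp.mapDomain_single, sub_eq_add_neg, ← Finsupp.single_neg]
    have e1 : formsMap ε (D.f l) (⟨m, (x'.map (D.g hk)).map (D.g hl)⟩ : Forms (R l) ε) =
        ⟨m, x'.map (D.f j)⟩ := by
      change (⟨m, ((x'.map (D.g hk)).map (D.g hl)).map (D.f l)⟩ : Forms S ε) = _
      rw [D.map_form, D.map_form]
    have e2 : formsMap ε (D.f l) (⟨n, y'.map (D.g hl)⟩ : Forms (R l) ε) = ⟨n, y'.map (D.f k)⟩ := by
      change (⟨n, (y'.map (D.g hl)).map (D.f l)⟩ : Forms S ε) = _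
      rw [D.map_form]
    rw [e1, e2]
  · obtain ⟨j, hj, x1, rfl⟩ := D.lift_form x i
    obtain ⟨k, hk, y1, rfl⟩ := D.lift_form y j
    obtain ⟨l, hl, z2, rfl⟩ := D.lift_form z k
    let x2 := x1.map (D.g (D.trans hk hl))
    let y2 := y1.map (D.g hl)
    have ex : x2.map (D.f l) = x1.map (D.f j) := D.map_form _ _
    have ey : y2.map (D.f l) = y1.map (D.f k) := D.map_form _ _
    rw [← ex, ← ey] at h1 h2 h3 h4
    refine ⟨l, D.trans (D.trans hj hk) hl, _,
      Or.inr (Or.inl ⟨n, x2, y2, z2, ?_, ?_, ?_, ?_, rfl⟩), ?_⟩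
    · apply D.mat_inj
      rw [Matrix.map_add _ (map_add _)]
      exact h1
    · apply D.mat_inj
      rw [Matrix.map_add _ (map_add _)]
      exact h2
    · apply D.mat_inj
      rw [Matrix.map_mul, ← QForm.map_phi, Matrix.map_zero _ (map_zero _)]
      exact h3
    · apply D.mat_inj
      rw [Matrix.map_mul, ← QForm.map_phi, Matrix.map_zero _ (map_zero _)]
      exact h4
    · rw [← ex, ← ey]
      have e : ∀ w : QForm (R l) ε (Fin n), formsMap ε (D.f l) (⟨n, w⟩ : Forms (R l) ε) =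
          ⟨n, w.map (D.f l)⟩ := fun w => rfl
      rw [sub_eq_add_neg, sub_eq_add_neg, Finsupp.mapDomain_add, Finsupp.mapDomain_add,
        ← Finsupp.single_neg, ← Finsupp.single_neg, Finsupp.mapDomain_single,
        Finsupp.mapDomain_single, Finsupp.mapDomain_single, e, e, e, Finsupp.single_neg,
        Finsupp.single_neg, ← sub_eq_add_neg, ← sub_eq_add_neg]
  · obtain ⟨j, hj, x', rfl⟩ := D.lift_form x i
    obtain ⟨k, hk, h'⟩ := D.lift_hyp h
    refine ⟨k, D.trans hj hk, _, Or.inr (Or.inr ⟨⟨n, x'.map (D.g hk)⟩, h', rfl⟩), ?_⟩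
    rw [Finsupp.mapDomain_single]
    have e : formsMap ε (D.f k) (⟨n, x'.map (D.g hk)⟩ : Forms (R k) ε) = ⟨n, x'.map (D.f j)⟩ := by
      change (⟨n, (x'.map (D.g hk)).map (D.f k)⟩ : Forms S ε) = _
      rw [D.map_form]
    rw [e]

/-- The span of the relations. -/
theorem lift_span {r : Forms S ε →₀ ℚ} (hr : r ∈ LSpan S ε) (i : ι) :
    ∃ k, D.le i k ∧ ∃ s ∈ LSpan (R k) ε, Finsupp.mapDomain (formsMap ε (D.f k)) s = r := by
  induction hr using Submodule.span_induction with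
  | mem r hr =>
    obtain ⟨k, hk, s, hs, h⟩ := D.lift_rel hr i
    exact ⟨k, hk, s, Submodule.subset_span hs, h⟩
  | zero => exact ⟨i, D.refl i, 0, Submodule.zero_mem _, Finsupp.mapDomain_zero⟩
  | add x y _ _ hx hy =>
    obtain ⟨k, hk, s, hs, rfl⟩ := hx
    obtain ⟨l, hl, t, ht, rfl⟩ := hy
    obtain ⟨m, hkm, hlm⟩ := D.dir k l
    refine ⟨m, D.trans hk hkm, Finsupp.mapDomain (formsMap ε (D.g hkm)) s +
      Finsupp.mapDomain (formsMap ε (D.g hlm)) t, Submodule.add_mem _ (lspan_map ε _ hs)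
      (lspan_map ε _ ht), ?_⟩
    rw [Finsupp.mapDomain_add, D.map_dom, D.map_dom]
  | smul a x _ hx =>
    obtain ⟨k, hk, s, hs, rfl⟩ := hx
    exact ⟨k, hk, a • s, Submodule.smul_mem _ a hs, Finsupp.mapDomain_smul _ _⟩

/-- **Continuity of the rationalised L-group.** -/
theorem lq_eq_zero {i : ι} (x : LQ (R i) ε) (hx : LQ.map ε (D.f i) x = 0) :
    ∃ k, ∃ h : D.le i k, LQ.map ε (D.g h) x = 0 := by
  obtain ⟨r, rfl⟩ := Submodule.mkQ_surjective (LSpan (R i) ε) x
  have h1 : Finsupp.mapDomain (formsMap ε (D.f i)) r ∈ LSpan S ε :=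
    (Submodule.Quotient.mk_eq_zero _).mp hx
  obtain ⟨k, hk, s, hs, h⟩ := D.lift_span h1 i
  refine ⟨k, hk, ?_⟩
  have h2 : Finsupp.mapDomain (formsMap ε (D.g hk)) r = s := by
    apply Finsupp.mapDomain_injective (D.forms_inj (ε := ε) k)
    rw [D.map_dom, h]
  change LQ.mk (R k) ε (Finsupp.mapDomain (formsMap ε (D.g hk)) r) = 0
  rw [h2]
  exact (Submodule.Quotient.mk_eq_zero _).mpr hs

end DS

end Pool.Agent.Zk7.NC
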