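import Pool.Agent.Y363.PW.L
import Pool.Agent.Y75.MQ.Prod

/-!
The functor `G ↦ L₀(ℤ[G]; ε) ⊗ ℚ`; transfers along pairs; its values on the unions of directed
families of subgroups.
-/

namespace Pool.Agent.Zk7.NC

open Pool.Agent.Y483 Pool.Agent.Y110.KW Pool.Agent.Y483.PW Pool.Agent.Y75.MQ CategoryTheory

section Functor

variable (ε : ℤˣ)

theorem zg_id (G : Type) [Group G] :
    zgMap (MonoidHom.id G) = NonUnitalStarRingHom.id (MonoidAlgebra ℤ G) := by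
  apply zgHom_ext
  intro g
  rw [zgMap_single]; rfl

theorem zg_comp {G K L : Type} [Group G] [Group K] [Group L] (f : G →* K) (g : K →* L) :
    zgMap (g.comp f) = (zgMap g).comp (zgMap f) := by
  apply zgHom_ext
  intro g
  rw [NonUnitalStarRingHom.comp_apply, zgMap_single, zgMap_single, zgMap_single]; rfl

theorem l0_id (G : Type) [Group G] :
    ModuleCat.ofHom (LQ.map ε (zgMap (MonoidHom.id G))) =
      𝟙 (ModuleCat.of ℚ (LQ (MonoidAlgebra ℤ G) ε)) := by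
  apply ModuleCat.hom_ext
  apply LinearMap.ext
  intro z
  change LQ.map ε (zgMap (MonoidHom.id G)) z = z
  rw [zg_id, LQ.map_id']

theorem l0_comp {G K L : Type} [Group G] [Group K] [Group L] (f : G →* K) (g : K →* L) :
    ModuleCat.ofHom (LQ.map ε (zgMap (g.comp f))) =
      ModuleCat.ofHom (LQ.map ε (zgMap f)) ≫ ModuleCat.ofHom (LQ.map ε (zgMap g)) := by
  apply ModuleCat.hom_ext
  apply LinearMap.ext
  intro z
  change LQ.map ε (zgMap (g.comp f)) z = LQ.map ε (zgMap g) (LQ.map ε (zgMap f) z)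
  rw [zg_comp, LQ.map_comp']

/-- The functor `G ↦ L₀(ℤ[G]; ε) ⊗ ℚ`. -/
noncomputable def L0 : GrpCat.{0} ⥤ ModuleCat.{0} ℚ where
  obj G := ModuleCat.of ℚ (LQ (MonoidAlgebra ℤ G) ε)
  map f := ModuleCat.ofHom (LQ.map ε (zgMap f.hom))
  map_id G := l0_id ε G
  map_comp f g := l0_comp ε f.hom g.hom

/-- With a fixed group `T` as a factor. -/
theorem times_L0 (T : Type) [Group T] : timesF T ⋙ L0 ε = lgrp ε T := rfl

/-- Transfers along pairs. -/
theorem hasPT_L0 : HasPT (L0 ε) := by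
  intro G A K _ _ κ
  have h0 : ∃ Φ : (L0 ε).obj (GrpCat.of (G × PUnit)) →ₗ[ℚ] (L0 ε).obj (GrpCat.of (K × PUnit)),
      ∀ (G₀ : Type) [Group G₀] (j : G₀ →* G) (Y : Finset A) (lc ld : A → (G₀ →* K)),
        (∀ a ∈ Y, ∀ g, κ.σ (j g) a = a ∧ lc a g = κ.c (j g) a ∧ ld a g = κ.d (j g) a) →
        (∀ a ∉ Y, ∀ g, κ.c (j g) a = κ.d (j g) a) →
          ∀ x : (L0 ε).obj (GrpCat.of (G₀ × PUnit)),
          Φ (emap (L0 ε) (timesT j PUnit) x) = ∑ a ∈ Y, (emap (L0 ε) (timesT (lc a) PUnit) x -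
            emap (L0 ε) (timesT (ld a) PUnit) x) :=
    Pool.Agent.Y363.PW.hasPT_lgrp ε PUnit G A K κ
  obtain ⟨Φ, hΦ⟩ := h0
  refine ⟨(emap (L0 ε) (MonoidHom.fst K PUnit)) ∘ₗ Φ ∘ₗ (emap (L0 ε) (MonoidHom.inl G PUnit)), ?_⟩
  intro G₀ _ j Y lc ld h1 h2 x
  have h3 := hΦ G₀ j Y lc ld h1 h2 (emap (L0 ε) (MonoidHom.inl G₀ PUnit) x)
  have e1 : emap (L0 ε) (timesT j PUnit) (emap (L0 ε) (MonoidHom.inl G₀ PUnit) x) =
      emap (L0 ε) (MonoidHom.inl G PUnit) (emap (L0 ε) j x) := by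
    rw [← emap_comp, ← emap_comp]
    rfl
  have e2 : ∀ l : G₀ →* K, emap (L0 ε) (MonoidHom.fst K PUnit) (emap (L0 ε) (timesT l PUnit)
      (emap (L0 ε) (MonoidHom.inl G₀ PUnit) x)) = emap (L0 ε) l x := by
    intro l
    rw [← emap_comp, ← emap_comp]
    rfl
  rw [LinearMap.comp_apply, LinearMap.comp_apply, ← e1, h3, map_sum]
  apply Finset.sum_congr rfl
  intro a _
  rw [map_sub, e2, e2]

end Functor

end Pool.Agent.Zk7.NC
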