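import Pool.Agent.Zk7.NC.Cls

/-!
A class of groups with injective rational assembly maps in L-theory.

`hq j` is the functor `G ↦ H_j(G; ℚ)` and `lgrp ε T` is the functor `G ↦ L₀(ℤ[G × T]; ε) ⊗ ℚ`
(nonsingular `ε`-quadratic forms on finitely generated projective modules modulo hyperbolic ones).
A group `G` is detecting (`DetL ε G`) if for every group `T` and all families of transformations
`α_{j,i} : H_j(G; ℚ) → L₀(ℤ[G × T]; ε) ⊗ ℚ`, `i ∈ I_j`, natural in the group `G`, such that for each
`j` the `α_{j,i}`, `i ∈ I_j`, are linearly independent on `ℤ^j`, the sum of all the `α_{j,i}` is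
injective on `G`.

If all the groups with a property `B` are detecting, then so are all the groups in the class
`Cls B`. This is the smallest class which contains the groups with the property `B`, the groups
`π / [R, R]` for all groups `π` which act on a tree with finite stabilizers of the vertices and all
normal subgroups `R` of `π`, and the rationally acyclic groups, and is closed under direct products,
overgroups of finite index, extensions with locally finite kernel, restricted wreath products
`K ≀_V Γ` with the pointwise stabilizers of the finite subsets of `V` in the class, semidirect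
products with a system of supports, directed unions, and detection of the rational homology by
homomorphisms. The case of the empty property `B` has no hypothesis.
-/

namespace Pool.Agent.Zk7.NC.TreeClass

open CategoryTheory Pool.Agent.Y483 Pool.Agent.Y75.MQ Pool.Agent.Zk7.NC

/-- The group `G` is detecting for the rationalised L-theory of integral group rings: `kerFam` is
the kernel of the sum `⨁_{(j,i)} H_j(G; ℚ) → L₀(ℤ[G × T]; ε) ⊗ ℚ` of the `α_{j,i}`. -/
def DetL (ε : ℤˣ) (G : Type) [Group G] : Prop :=
  ∀ (T : Type) [Group T] (I : ℕ → Type) (α : ∀ j : ℕ, I j → (hq j ⟶ lgrp ε T)),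
    (∀ j, LinearIndependent ℚ fun i : I j => ((α j i).app (zn j)).hom) →
      kerFam (fun p : Σ j, I j => α p.1 p.2) (GrpCat.of G) = ⊥

theorem result (ε : ℤˣ) (B : (G : Type) → [Group G] → Prop)
    (hB : ∀ (G : Type) [Group G], B G → DetL ε G) (G : Type) [Group G] (hG : Cls B G) :
    DetL ε G := fun T _ I α hα =>
  hG.det (hasPT_L0 ε) (cont_L0 ε) (fun K _ hK T _ I α hα => hB K hK T I α hα) T I α hα

end Pool.Agent.Zk7.NC.TreeClass
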