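import Pool.Agent.Zk7.NC.L0
import Pool.Agent.Zk7.NC.Dir
import Pool.Agent.R615.KU.Cls2

/-!
Directed unions of subgroups: rational homology and rationalised L-groups of group rings.
-/

namespace Pool.Agent.Zk7.NC

open Pool.Agent.Y483 Pool.Agent.Y110.KW Pool.Agent.Y483.PW Pool.Agent.Y75.MQ CategoryTheory
  DirectSum Pool.Agent.R615.KU Pool.Agent.R793.Mag

section ZG

variable {G K : Type} [Group G] [Group K]

theorem zg_apply (f : G →* K) (x : MonoidAlgebra ℤ G) :
    zgMap f x = MonoidAlgebra.mapDomain f x := by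
  have key : (zgMap f : MonoidAlgebra ℤ G →+ MonoidAlgebra ℤ K) =
      ((MonoidAlgebra.mapDomainRingHom ℤ f : MonoidAlgebra ℤ G →+* MonoidAlgebra ℤ K) :
        MonoidAlgebra ℤ G →+ MonoidAlgebra ℤ K) := by
    apply MonoidAlgebra.addMonoidHom_ext
    intro g n
    change zgMap f (MonoidAlgebra.single g n) = MonoidAlgebra.mapDomain f (MonoidAlgebra.single g n)
    rw [zgMap_single, MonoidAlgebra.mapDomain_single]
  exact DFunLike.congr_fun key x

theorem zg_injective (f : G →* K) (hf : Function.Injective f) : Function.Injective (zgMap f) := by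
  intro x y h
  rw [zg_apply, zg_apply] at h
  exact MonoidAlgebra.mapDomain_injective hf h

end ZG

section Union

variable {G : Type} [Group G] {ι : Type} (H : ι → Subgroup G) (hd : Directed (· ≤ ·) H)
  (hc : ∀ g : G, ∃ i, g ∈ H i)

/-- The group rings of the subgroups. -/
noncomputable def dsZ (T : Type) [Group T] :
    DS (fun i => MonoidAlgebra ℤ (H i × T)) (MonoidAlgebra ℤ (G × T)) where
  f i := zgMap (timesT (H i).subtype T)
  inj i := zg_injective _ (fun x y h => by
    have h1 := congrArg Prod.fst h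
    have h2 := congrArg Prod.snd h
    exact Prod.ext (Subtype.ext h1) h2)
  le i j := H i ≤ H j
  refl i := le_refl _
  trans h h' := le_trans h h'
  dir i j := hd i j
  g h := zgMap (timesT (Subgroup.inclusion h) T)
  comp h x := by
    have e : (zgMap (timesT (H _).subtype T)).comp (zgMap (timesT (Subgroup.inclusion h) T)) =
        zgMap (timesT (H _).subtype T) := by
      rw [← zgMap_comp]
      rfl
    exact DFunLike.congr_fun e x
  cov s := by
    classical
    obtain ⟨i₀, -⟩ := hc 1
    induction s using MonoidAlgebra.induction_linear with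
    | zero => exact ⟨i₀, 0, map_zero _⟩
    | add a b ha hb =>
      obtain ⟨i, x, rfl⟩ := ha
      obtain ⟨j, y, rfl⟩ := hb
      obtain ⟨k, h1, h2⟩ := hd i j
      refine ⟨k, zgMap (timesT (Subgroup.inclusion h1) T) x +
        zgMap (timesT (Subgroup.inclusion h2) T) y, ?_⟩
      have e : ∀ (i : ι) (h : H i ≤ H k) (x : MonoidAlgebra ℤ (H i × T)),
          zgMap (timesT (H k).subtype T) (zgMap (timesT (Subgroup.inclusion h) T) x) =
            zgMap (timesT (H i).subtype T) x := by
        intro i h x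
        have e1 : (zgMap (timesT (H k).subtype T)).comp
            (zgMap (timesT (Subgroup.inclusion h) T)) = zgMap (timesT (H i).subtype T) := by
          rw [← zgMap_comp]
          rfl
        exact DFunLike.congr_fun e1 x
      rw [map_add, e, e]
    | single g n =>
      obtain ⟨i, hi⟩ := hc g.1
      exact ⟨i, MonoidAlgebra.single (⟨g.1, hi⟩, g.2) n, zgMap_single _ _ _⟩

include hd hc in
/-- An element of the value on a member which becomes trivial in the union is trivial in a larger
member. -/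
theorem cont_times (ε : ℤˣ) (T : Type) [Group T] (i : ι)
    (x : (timesF T ⋙ L0 ε).obj (GrpCat.of (H i)))
    (hx : emap (timesF T ⋙ L0 ε) (H i).subtype x = 0) :
    ∃ k, ∃ h : H i ≤ H k, emap (timesF T ⋙ L0 ε) (Subgroup.inclusion h) x = 0 :=
  (dsZ H hd hc T).lq_eq_zero x hx

include hd hc in
/-- A class comes from a member. -/
theorem hq_union (i : ι) (j : ℕ) (x : HQ j G) :
    ∃ k, H i ≤ H k ∧ ∃ y : HQ j (H k), hqMap (H k).subtype j y = x := by
  classical
  obtain ⟨z, hz⟩ := exists_rpr (Rep.trivial ℚ G ℚ) j x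
  have h1 : ∀ (F : Finset G), ∃ k, H i ≤ H k ∧ ∀ g ∈ F, g ∈ H k := by
    intro F
    induction F using Finset.induction_on with
    | empty => exact ⟨i, le_refl _, fun g hg => absurd hg (Finset.notMem_empty g)⟩
    | insert a F _ ih =>
      obtain ⟨k, h1, h2⟩ := ih
      obtain ⟨l, hl⟩ := hc a
      obtain ⟨m, h3, h4⟩ := hd k l
      refine ⟨m, le_trans h1 h3, fun g hg => ?_⟩
      rcases Finset.mem_insert.mp hg with rfl | hg
      · exact h4 hl
      · exact h3 (h2 g hg)
  obtain ⟨k, hk, hF⟩ := h1 (z.support.biUnion fun t => Finset.univ.image t)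
  have h2 : ∀ w : T j G ℚ, w.support ⊆ z.support →
      ∃ w' : T j (H k) ℚ, mp j (H k).subtype LinearMap.id w' = w := by
    intro w hw
    refine ⟨w.sum fun t q => if h : ∀ a, t a ∈ H k then Finsupp.single (fun a => ⟨t a, h a⟩) q
      else 0, ?_⟩
    rw [Finsupp.sum, map_sum]
    conv_rhs => rw [← Finsupp.sum_single w, Finsupp.sum]
    apply Finset.sum_congr rfl
    intro t ht
    have h3 : ∀ a, t a ∈ H k := fun a => hF _ (Finset.mem_biUnion.mpr
      ⟨t, hw ht, Finset.mem_image.mpr ⟨a, Finset.mem_univ a, rfl⟩⟩)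
    rw [dif_pos h3, mp_single]
    rfl
  obtain ⟨z', rfl⟩ := h2 z (Finset.Subset.refl _)
  have hcyc : Cyc (tQ (H k)) j z' := by
    cases j with
    | zero => exact Cyc.zero _ _
    | succ j =>
      rw [cyc_succ]
      apply mp_injective (M := ℚ) (N := ℚ) j (H k).subtype_injective (φ := LinearMap.id)
        Function.injective_id
      have h3 := (cyc_succ _ _ _).mp hz.cyc
      rw [map_zero, ← dd_mp (ρ := tQ (H k)) (τ := tQ G) (H k).subtype LinearMap.id
        (fun g m => rfl)]
      exact h3
  obtain ⟨y, hy⟩ := exists_class (A := Rep.trivial ℚ (H k) ℚ) j z' hcyc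
  refine ⟨k, hk, y, ?_⟩
  have h4 := hz.sub (hy.hq (H k).subtype)
  have h5 : x - hqMap (H k).subtype j y = 0 := h4.eq_zero_iff.mpr (by rw [sub_self]; exact ⟨0, map_zero _⟩)
  exact (sub_eq_zero.mp h5).symm

/-- Continuity of a functor along the directed unions of subgroups. -/
def Cont (E : GrpCat.{0} ⥤ ModuleCat.{0} ℚ) : Prop :=
  ∀ (T : Type) [Group T] (G : Type) [Group G] (ι : Type) (H : ι → Subgroup G),
    Directed (· ≤ ·) H → (∀ g : G, ∃ i, g ∈ H i) → ∀ (i : ι)
    (x : (timesF T ⋙ E).obj (GrpCat.of (H i))), emap (timesF T ⋙ E) (H i).subtype x = 0 →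
    ∃ k, ∃ h : H i ≤ H k, emap (timesF T ⋙ E) (Subgroup.inclusion h) x = 0

theorem cont_L0 (ε : ℤˣ) : Cont (L0 ε) := fun T _ _ _ _ H hd hc i x hx =>
  cont_times H hd hc ε T i x hx

include hd hc in
/-- **Directed unions.** -/
theorem det_union {E : GrpCat.{0} ⥤ ModuleCat.{0} ℚ} (hE : Cont E) (h : ∀ i, Det E (H i)) :
    Det E G := by
  classical
  intro T _ I α hα
  obtain ⟨i₀, -⟩ := hc 1
  change LinearMap.ker (tb (dg (I := I)) (fam α) G) = ⊥
  rw [eq_bot_iff]
  intro x hx
  rw [Submodule.mem_bot]
  -- the class comes from a member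
  have h1 : ∀ (s : Finset (Σ j, I j)) (x : HB (dg (I := I)) G), (∀ p ∉ s, x p = 0) →
      ∃ k, ∃ y : HB (dg (I := I)) (H k), hbMap (dg (I := I)) (H k).subtype y = x := by
    intro s
    induction s using Finset.induction_on with
    | empty =>
      intro x hx
      refine ⟨i₀, 0, ?_⟩
      rw [map_zero]
      apply DFunLike.ext
      intro p
      exact (hx p (Finset.notMem_empty p)).symm
    | insert a s ha ih =>
      intro x hx
      obtain ⟨k, y, hy⟩ := ih (x - DirectSum.of (fun p : Σ j, I j => HQ (dg p) G) a (x a)) (by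
        intro p hp
        rw [DirectSum.sub_apply]
        by_cases hpa : p = a
        · subst hpa
          rw [DirectSum.of_eq_same, sub_self]
        · rw [DirectSum.of_eq_of_ne _ _ _ (Ne.symm hpa |>.symm), hx p (by
            rw [Finset.mem_insert, not_or]; exact ⟨hpa, hp⟩), sub_zero])
      obtain ⟨l, hl, w, hw⟩ := hq_union H hd hc k a.1 (x a)
      refine ⟨l, hbMap _ (Subgroup.inclusion hl) y +
        DirectSum.of (fun p : Σ j, I j => HQ (dg p) (H l)) a w, ?_⟩
      have e1 : hbMap (dg (I := I)) (H l).subtype (hbMap (dg (I := I)) (Subgroup.inclusion hl) y) =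
          hbMap (dg (I := I)) (H k).subtype y := by
        rw [← hbMap_comp]
        rfl
      have hw' : hqMap (H l).subtype (dg a) w = x a := hw
      rw [map_add, e1, hy, hbMap_of, hw', sub_add_cancel]
  obtain ⟨k, y, hy⟩ := h1 (DFinsupp.support x) x (fun p hp => by
    by_contra hne
    exact hp (DFinsupp.mem_support_iff.mpr hne))
  -- the image is zero in a member
  have h2 : emap (timesF T ⋙ E) (H k).subtype (tb (dg (I := I)) (fam α) (H k) y) = 0 := by
    have h3 := tb_nat (dg (I := I)) (fam α) (H k).subtype y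
    rw [hy, LinearMap.mem_ker.mp hx] at h3
    exact h3
  obtain ⟨l, hl, h4⟩ := hE T G ι H hd hc k _ h2
  have h5 : hbMap (dg (I := I)) (Subgroup.inclusion hl) y ∈
      LinearMap.ker (tb (dg (I := I)) (fam α) (H l)) := by
    rw [LinearMap.mem_ker, ← tb_nat]
    exact h4
  have h6 : LinearMap.ker (tb (dg (I := I)) (fam α) (H l)) = ⊥ := h l T I α hα
  rw [h6, Submodule.mem_bot] at h5
  have e2 : hbMap (dg (I := I)) (H l).subtype (hbMap (dg (I := I)) (Subgroup.inclusion hl) y) =
      hbMap (dg (I := I)) (H k).subtype y := by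
    rw [← hbMap_comp]
    rfl
  rw [← hy, ← e2, h5, map_zero]

end Union

end Pool.Agent.Zk7.NC
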